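import Pool.Agent.Y854.GM.WinV

/-! The theorem of `Core` for tuples of arbitrary length. Tuples of complex numbers in windows `N + Adm H`, `(H + 2) ^ E ≤ N`, in which some property holds outside of exceptional
sets with at most `M` elements: for all `α` outside a set of dimension at most `(1 - b + τ) / (1 - θ)` there are no
exceptional tuples near `α v_n` for large `n`. -/

set_option autoImplicit false

open Finset Filter Topology MeasureTheory

namespace Pool.Agent.V11168.NX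

open Pool.Agent.Y854.GM

theorem nxk (Adm : ℝ → Set ℂ) (D E M N₀ : ℕ) (hD : 1 ≤ D) (hE : 1 ≤ E)
    (hmono : ∀ S T : ℝ, S ≤ T → Adm S ⊆ Adm T)
    (hcl : ∀ T : ℝ, 1 ≤ T → ∀ γ ∈ Adm T, ∀ a : ℤ, |(a : ℝ)| ≤ T → γ + (a : ℂ) ∈ Adm ((2 * T) ^ D))
    (hbd : ∀ T : ℝ, 1 ≤ T → ∀ γ ∈ Adm T, ‖γ‖ ≤ 2 * T)
    (Good : ∀ k : ℕ, (Fin k → ℂ) → Prop)
    (hW : ∀ H N : ℕ, N₀ ≤ N → (H + 2) ^ E ≤ N → ∃ S : Finset ℂ, S.card ≤ M ∧ ∀ (k : ℕ) (β : Fin k → ℂ),
      Function.Injective β → (∀ i, β i ∉ S) → (∀ i, β i ∈ Adm H) → Good k fun i => (N : ℂ) + β i)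
    {b : ℝ} (hb : 0 < b) (hbE : b * (2 * (D * E)) ≤ 1)
    {v : ℕ → ℝ} {τ θ : ℝ} (hpos : ∀ n, 1 ≤ v n) (hτ : 0 ≤ τ) (hv : ExpLe v τ) (hθ0 : 0 ≤ θ) (hθ : θ ≤ b) :
    ∃ X : Set ℝ, dimH X ≤ ENNReal.ofReal ((1 - b + τ) / (1 - θ)) ∧ ∀ α : ℝ, 0 < α → α ∉ X →
      ∃ n0 : ℕ, ∀ n : ℕ, n0 ≤ n → ∀ (k : ℕ) (g : Fin k → ℤ) (γ : Fin k → ℂ), (∀ i, |(g i : ℝ) - α * v n| ≤ (v n) ^ θ) →
        (∀ i, γ i ∈ Adm ((v n) ^ θ)) → Function.Injective (fun i => (g i : ℂ) + γ i) →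
        Good k fun i => (g i : ℂ) + γ i := by
  classical
  have hDR : (1 : ℝ) ≤ D := by exact_mod_cast hD
  have hER : (1 : ℝ) ≤ E := by exact_mod_cast hE
  have hb2 : b ≤ 1 / 2 := by nlinarith [mul_le_mul hDR hER zero_le_one (by linarith)]
  have hvp : ∀ n, 0 < v n := fun n => lt_of_lt_of_le one_pos (hpos n)
  have htv : Tendsto v atTop atTop := tendsto_of_expLe hvp hτ hv
  have hW' : ∀ H N : ℕ, ∃ S : Finset ℂ, S.card ≤ M ∧ (N₀ ≤ N → (H + 2) ^ E ≤ N → ∀ (k : ℕ) (β : Fin k → ℂ),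
      Function.Injective β → (∀ i, β i ∉ S) → (∀ i, β i ∈ Adm H) → Good k fun i => (N : ℂ) + β i) := by
    intro H N
    by_cases h : N₀ ≤ N ∧ (H + 2) ^ E ≤ N
    · obtain ⟨S, hS, hS'⟩ := hW H N h.1 h.2
      exact ⟨S, hS, fun _ _ => hS'⟩
    · exact ⟨∅, by simp, fun h1 h2 => absurd ⟨h1, h2⟩ h⟩
  choose S hSM hS using hW'
  set L : ℕ → ℝ := fun n => (v n) ^ b with hL
  set Hn : ℕ → ℕ := fun n => ⌈(8 * L n) ^ D⌉₊ with hHn
  set Sw : ℕ → Set ℂ := fun n => {p | ∃ j : ℕ, (p - ((⌊(j : ℝ) * L n⌋₊ : ℕ) : ℂ)) ∈ S (Hn n) ⌊(j : ℝ) * L n⌋₊ ∧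
    ‖p - ((⌊(j : ℝ) * L n⌋₊ : ℕ) : ℂ)‖ ≤ 8 * L n} with hSw
  have hL1 : ∀ n, 1 ≤ L n := fun n => Real.one_le_rpow (hpos n) hb.le
  obtain ⟨X, hX, hX2⟩ := windowsV Sw (fun _ (p : ℂ) => p.re) (v := v) (s := 1 - b) (τ := τ) (θ := θ) 3 hpos hτ hv
    (by linarith) (by linarith) (by
      intro A ε hε
      refine ⟨((A : ℝ) + 11) * M, 0, fun n _ => ?_⟩
      have hn1 := hpos n
      have hn0 := hvp n
      have hL1 := hL1 n
      have hL0 : 0 < L n := by linarith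
      have hLv : L n ≤ v n := by
        calc L n ≤ (v n) ^ (1 : ℝ) := Real.rpow_le_rpow_of_exponent_le hn1 (by linarith)
          _ = v n := Real.rpow_one _
      set J : ℕ := ⌊(((A : ℝ) + 1) * v n + 9 * L n) / L n⌋₊ with hJ
      have hA0 : (0 : ℝ) ≤ A := Nat.cast_nonneg A
      have hsub : {t | t ∈ Sw n ∧ (t : ℂ).re ≤ ((A : ℝ) + 1) * v n} ⊆
          (((range (J + 1)).biUnion fun j => (S (Hn n) ⌊(j : ℝ) * L n⌋₊).image
            fun β => β + ((⌊(j : ℝ) * L n⌋₊ : ℕ) : ℂ) : Finset ℂ) : Set ℂ) := by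
        rintro t ⟨⟨j, hj, hjt⟩, ht⟩
        rw [mem_coe, mem_biUnion]
        refine ⟨j, ?_, ?_⟩
        · rw [mem_range, Nat.lt_succ_iff]
          apply Nat.le_floor
          rw [le_div_iff₀ hL0]
          have h1 : (j : ℝ) * L n < ⌊(j : ℝ) * L n⌋₊ + 1 := Nat.lt_floor_add_one _
          have h2 := Complex.abs_re_le_norm (t - ((⌊(j : ℝ) * L n⌋₊ : ℕ) : ℂ))
          rw [Complex.sub_re, Complex.natCast_re] at h2
          have h3 := (abs_le.1 (h2.trans hjt)).1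
          linarith
        · rw [mem_image]
          exact ⟨_, hj, by ring⟩
      refine ⟨(finite_toSet _).subset hsub, ?_⟩
      have h1 : {t | t ∈ Sw n ∧ (t : ℂ).re ≤ ((A : ℝ) + 1) * v n}.ncard ≤ (J + 1) * M := by
        refine (Set.ncard_le_ncard hsub (finite_toSet _)).trans ?_
        rw [Set.ncard_coe_finset]
        refine card_biUnion_le.trans ((sum_le_card_nsmul _ _ M fun j _ => card_image_le.trans (hSM _ _)).trans ?_)
        rw [card_range, smul_eq_mul]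
      have h2 : ({t | t ∈ Sw n ∧ (t : ℂ).re ≤ ((A : ℝ) + 1) * v n}.ncard : ℝ) ≤ ((J : ℝ) + 1) * M := by
        exact_mod_cast h1
      refine h2.trans ?_
      have h3 : (J : ℝ) ≤ (((A : ℝ) + 1) * v n + 9 * L n) / L n := Nat.floor_le (by positivity)
      have h4 : (1 : ℝ) ≤ (v n) ^ (1 - b) := Real.one_le_rpow hn1 (by linarith)
      have h5 : (((A : ℝ) + 1) * v n + 9 * L n) / L n ≤ ((A : ℝ) + 10) * (v n) ^ (1 - b) := by
        have e1 : v n / L n = (v n) ^ (1 - b) := by rw [hL, Real.rpow_sub hn0, Real.rpow_one]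
        rw [add_div, mul_div_assoc, e1, mul_div_assoc, div_self hL0.ne']
        linarith
      have h6 : (v n) ^ (1 - b) ≤ (v n) ^ (1 - b + ε) := Real.rpow_le_rpow_of_exponent_le hn1 (by linarith)
      have h7 : (J : ℝ) + 1 ≤ ((A : ℝ) + 11) * (v n) ^ (1 - b + ε) := by
        calc (J : ℝ) + 1 ≤ ((A : ℝ) + 10) * (v n) ^ (1 - b) + (v n) ^ (1 - b) := by linarith
          _ = ((A : ℝ) + 11) * (v n) ^ (1 - b) := by ring
          _ ≤ _ := mul_le_mul_of_nonneg_left h6 (by positivity)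
      calc ((J : ℝ) + 1) * M ≤ (((A : ℝ) + 11) * (v n) ^ (1 - b + ε)) * M :=
            mul_le_mul_of_nonneg_right h7 (Nat.cast_nonneg _)
        _ = _ := by ring)
  refine ⟨X, hX, fun α hα hαX => ?_⟩
  obtain ⟨n1, hn1⟩ := hX2 α hα hαX
  have t1 : Tendsto (fun n => (v n) ^ (1 - b)) atTop atTop := (tendsto_rpow_atTop (by linarith)).comp htv
  have t2 : Tendsto (fun n => (v n) ^ (1 / 2 : ℝ)) atTop atTop := (tendsto_rpow_atTop (by norm_num)).comp htv
  obtain ⟨n2, hn2⟩ := eventually_atTop.1 (((t1.eventually_ge_atTop (6 / α)).and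
    (t2.eventually_ge_atTop (2 / α * 11 ^ (D * E)))).and (htv.eventually_ge_atTop (2 * N₀ / α)))
  refine ⟨max n1 n2, fun n hn k g γ hg hγ hinj => ?_⟩
  have hw := hn1 n (le_of_max_le_left hn)
  obtain ⟨⟨a1, a2⟩, a3⟩ := hn2 n (le_of_max_le_right hn)
  have hv1 := hpos n
  have hv0 := hvp n
  have hL1 := hL1 n
  have hL0 : 0 < L n := by linarith
  have hθ1 : 1 ≤ (v n) ^ θ := Real.one_le_rpow hv1 hθ0
  have hθL : (v n) ^ θ ≤ L n := Real.rpow_le_rpow_of_exponent_le hv1 hθ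
  -- `6 L ≤ α v`
  have h6 : 6 * L n ≤ α * v n := by
    have e1 : v n = (v n) ^ (1 - b) * L n := by rw [hL, ← Real.rpow_add hv0]; simp
    rw [div_le_iff₀ hα] at a1
    calc 6 * L n ≤ ((v n) ^ (1 - b) * α) * L n := mul_le_mul_of_nonneg_right a1 hL0.le
      _ = α * ((v n) ^ (1 - b) * L n) := by ring
      _ = α * v n := by rw [← e1]
  set j : ℕ := ⌊(α * v n) / L n⌋₊ with hj
  set m : ℕ := ⌊(j : ℝ) * L n⌋₊ with hm
  have hjle : (j : ℝ) * L n ≤ α * v n := by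
    have h1 : (j : ℝ) ≤ (α * v n) / L n := Nat.floor_le (div_nonneg (by positivity) hL0.le)
    rwa [le_div_iff₀ hL0] at h1
  have hjgt : α * v n < (j : ℝ) * L n + L n := by
    have h1 : (α * v n) / L n < j + 1 := Nat.lt_floor_add_one _
    rw [div_lt_iff₀ hL0] at h1
    linarith
  have hmle : (m : ℝ) ≤ (j : ℝ) * L n := Nat.floor_le (by positivity)
  have hmgt : (j : ℝ) * L n < m + 1 := Nat.lt_floor_add_one _
  have hmhalf : α / 2 * v n ≤ m := by linarith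
  have hmN : N₀ ≤ m := by
    have h1 : (N₀ : ℝ) ≤ m := by
      rw [div_le_iff₀ hα] at a3
      linarith
    exact_mod_cast h1
  have hmE : (Hn n + 2) ^ E ≤ m := by
    have h1 : (((Hn n + 2) ^ E : ℕ) : ℝ) ≤ m := by
      push_cast
      have e1 : (Hn n : ℝ) ≤ (8 * L n) ^ D + 1 := (Nat.ceil_lt_add_one (by positivity)).le
      have e2 : (Hn n : ℝ) + 2 ≤ (11 * L n) ^ D := by
        have e3 : (8 * L n) ^ D + 3 ≤ (11 * L n) ^ D := by
          have e4 : (8 * L n) ^ D + 3 ^ D ≤ (8 * L n + 3) ^ D := by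
            exact pow_add_pow_le (by positivity) (by norm_num) (by omega)
          have e5 : (3 : ℝ) ≤ 3 ^ D := by
            calc (3 : ℝ) = 3 ^ 1 := by norm_num
              _ ≤ 3 ^ D := pow_le_pow_right₀ (by norm_num) hD
          have e6 : (8 * L n + 3) ^ D ≤ (11 * L n) ^ D := pow_le_pow_left₀ (by positivity) (by linarith) _
          linarith
        linarith
      have e7 : ((Hn n : ℝ) + 2) ^ E ≤ (11 * L n) ^ (D * E) := by
        rw [pow_mul]
        exact pow_le_pow_left₀ (by positivity) e2 _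
      refine e7.trans (le_trans ?_ hmhalf)
      rw [mul_pow]
      have e8 : L n ^ (D * E) ≤ (v n) ^ (1 / 2 : ℝ) := by
        rw [hL]
        simp only
        rw [← Real.rpow_natCast, ← Real.rpow_mul hv0.le]
        apply Real.rpow_le_rpow_of_exponent_le hv1
        push_cast
        linarith
      have e9 : (v n) ^ (1 / 2 : ℝ) * (v n) ^ (1 / 2 : ℝ) = v n := by
        rw [← Real.rpow_add hv0]
        norm_num
      have e10 : (0 : ℝ) < (v n) ^ (1 / 2 : ℝ) := Real.rpow_pos_of_pos hv0 _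
      calc (11 : ℝ) ^ (D * E) * L n ^ (D * E) ≤ 11 ^ (D * E) * (v n) ^ (1 / 2 : ℝ) :=
            mul_le_mul_of_nonneg_left e8 (by positivity)
        _ = α / 2 * (2 / α * 11 ^ (D * E)) * (v n) ^ (1 / 2 : ℝ) := by field_simp
        _ ≤ α / 2 * (v n) ^ (1 / 2 : ℝ) * (v n) ^ (1 / 2 : ℝ) := by gcongr
        _ = α / 2 * v n := by rw [mul_assoc, e9]
    exact_mod_cast h1
  have hgood := hS (Hn n) m hmN hmE k (fun i => ((g i : ℂ) + γ i) - m)
  have hnorm : ∀ i, |((g i - m : ℤ) : ℝ)| ≤ 4 * L n := by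
    intro i
    have h1 := abs_le.1 (hg i)
    rw [abs_le]
    push_cast
    constructor <;> linarith
  have hβ : ∀ i, (g i : ℂ) + γ i - m = γ i + ((g i - m : ℤ) : ℂ) := by
    intro i
    push_cast
    ring
  have h8 : 1 ≤ 4 * L n := by linarith
  have hγ4 : ∀ i, γ i ∈ Adm (4 * L n) := fun i => hmono _ _ (by linarith) (hγ i)
  have hres := hgood (fun i i' hii => hinj (by
    simp only at hii
    exact sub_left_injective hii)) (fun i hi => by
      have h1 := hw ((g i : ℂ) + γ i) ⟨j, hi, by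
        show ‖(g i : ℂ) + γ i - (m : ℂ)‖ ≤ 8 * L n
        rw [hβ i]
        have e1 : ‖γ i‖ ≤ 2 * (v n) ^ θ := hbd _ hθ1 _ (hγ i)
        have e2 : ‖((g i - m : ℤ) : ℂ)‖ ≤ 4 * L n := by
          rw [Complex.norm_intCast]
          exact hnorm i
        have e3 := norm_add_le (γ i) ((g i - m : ℤ) : ℂ)
        linarith⟩
      have e1 : ‖γ i‖ ≤ 2 * (v n) ^ θ := hbd _ hθ1 _ (hγ i)
      have e2 := Complex.abs_re_le_norm (γ i)
      rw [Complex.add_re, Complex.intCast_re] at h1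
      have e3 := abs_le.1 (hg i)
      have e4 := abs_le.1 (e2.trans e1)
      have e5 : |(g i : ℝ) + (γ i).re - α * v n| ≤ 3 * (v n) ^ θ := by
        rw [abs_le]
        constructor <;> linarith [e3.1, e3.2, e4.1, e4.2]
      linarith) (fun i => by
      show (g i : ℂ) + γ i - m ∈ Adm (Hn n)
      rw [hβ i]
      have h1 := hcl (4 * L n) h8 _ (hγ4 i) (g i - m) (hnorm i)
      refine hmono _ _ ?_ h1
      have h2 : (8 * L n) ^ D ≤ (Hn n : ℝ) := Nat.le_ceil _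
      have h3 : 2 * (4 * L n) = 8 * L n := by ring
      rw [h3]
      exact h2)
  have hfun : (fun i => (m : ℂ) + ((g i : ℂ) + γ i - m)) = fun i => (g i : ℂ) + γ i := by
    funext i
    ring
  rw [hfun] at hres
  exact hres

end Pool.Agent.V11168.NX
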