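import Pool.Agent.V11168.NX.Box

/-!
# Algebraic integers near almost all dilated polynomials

From a power saving for the number of bad `k`-tuples of algebraic integers of degree `m` and size `≤ T` to the absence of bad
tuples near the dilates of almost all `k`-tuples of monic real polynomials (Borel–Cantelli).
-/

set_option autoImplicit false

open MeasureTheory Filter

namespace Pool.Agent.V11168.NX

/-- roots of monic integral polynomials of degree `m` all of whose complex roots are at most `T` -/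
def AI (m : ℕ) (T : ℝ) (ξ : ℂ) : Prop :=
  ∃ f : Polynomial ℤ, f.Monic ∧ f.natDegree = m ∧ Polynomial.aeval ξ f = 0 ∧
    ∀ z : ℂ, Polynomial.aeval z f = 0 → ‖z‖ ≤ T

/-- the number of the integral points in the box of size `1`: the weights `m, m - 1, …, 1` -/
def Wt (m : ℕ) : ℕ := ∑ i : Fin m, (m - (i : ℕ))

lemma sum_wt (k m : ℕ) : ∑ i : Fin k × Fin m, (m - (i.2 : ℕ)) = k * Wt m := by
  rw [Fintype.sum_prod_type]
  simp only
  rw [Finset.sum_const, Finset.card_univ, Fintype.card_fin, smul_eq_mul]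
  rfl

/-- the `α_i` are algebraic integers of degree `m` whose minimal polynomials are near the dilates of the polynomials `x_i` -/
def NearI {k : ℕ} (m : ℕ) (x : Fin k × Fin m → ℝ) (V r : ℝ) (α : Fin k → ℂ) : Prop :=
  ∀ i, IsIntegral ℤ (α i) ∧ (minpoly ℤ (α i)).natDegree = m ∧
    ∀ j : Fin m, |((minpoly ℤ (α i)).coeff j : ℝ) - x (i, j) * V ^ (m - (j : ℕ))| ≤ r

theorem ae_ai {k m : ℕ} (Bd : (Fin k → ℂ) → Prop) {c C : ℝ} (hC : 0 ≤ C)
    (h : ∀ T : ℕ, 1 ≤ T → {α : Fin k → ℂ | (∀ i, AI m T (α i)) ∧ Bd α}.Finite ∧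
      ({α : Fin k → ℂ | (∀ i, AI m T (α i)) ∧ Bd α}.ncard : ℝ) ≤ C * (T : ℝ) ^ (((k * Wt m : ℕ) : ℝ) - c))
    {v : ℕ → ℝ} (hv : ∀ N, 1 ≤ v N) (hv0 : ∀ s : ℝ, 0 < s → Summable (fun n : ℕ => (v n) ^ (-s)))
    {θ : ℝ} (hθ1 : θ ≤ 1) (hθ : θ * (k * m : ℕ) < c) :
    ∀ᵐ x : Fin k × Fin m → ℝ, ∃ N₀ : ℕ, ∀ N : ℕ, N₀ ≤ N → ∀ α : Fin k → ℂ, NearI m x (v N) ((v N) ^ θ) α → ¬ Bd α := by
  have hθκ : θ * Fintype.card (Fin k × Fin m) < c := by
    rw [Fintype.card_prod, Fintype.card_fin, Fintype.card_fin]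
    exact hθ
  have hae := ae_boxes (ι := Fin k × Fin m) (P := Fin k → ℂ) hv hv0
    (fun i => m - (i.2 : ℕ)) (fun i => by have := i.2.2; omega)
    {α | (∀ i, IsIntegral ℤ (α i) ∧ (minpoly ℤ (α i)).natDegree = m) ∧ Bd α}
    (fun α i => ((minpoly ℤ (α i.1)).coeff i.2 : ℝ)) (c := c) (by
      intro A
      set e : ℝ := ((k * Wt m : ℕ) : ℝ) - c with he
      refine ⟨C * max 1 (((A : ℝ) + 2) ^ e), fun V hV => ?_⟩
      have hV0 : 0 < V := by linarith
      have hA0 : (0 : ℝ) ≤ A := Nat.cast_nonneg A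
      set T : ℕ := ⌈((A : ℝ) + 1) * V⌉₊ with hT
      have hTl : ((A : ℝ) + 1) * V ≤ T := Nat.le_ceil _
      have hTu : (T : ℝ) ≤ ((A : ℝ) + 2) * V := by
        have h1 : (T : ℝ) < ((A : ℝ) + 1) * V + 1 := Nat.ceil_lt_add_one (by positivity)
        nlinarith
      have hVT : V ≤ T := by nlinarith
      have hT1 : 1 ≤ T := by
        have : (1 : ℝ) ≤ T := hV.trans hVT
        exact_mod_cast this
      obtain ⟨h1, h2⟩ := h T hT1
      have hsub : {α | α ∈ {α : Fin k → ℂ | (∀ i, IsIntegral ℤ (α i) ∧ (minpoly ℤ (α i)).natDegree = m) ∧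
          Bd α} ∧ ∀ i : Fin k × Fin m,
          |((minpoly ℤ (α i.1)).coeff i.2 : ℝ)| ≤ A * V ^ (m - (i.2 : ℕ))} ⊆
          {α : Fin k → ℂ | (∀ i, AI m T (α i)) ∧ Bd α} := by
        rintro α ⟨⟨h3, h4⟩, h5⟩
        refine ⟨fun i => ⟨minpoly ℤ (α i), minpoly.monic (h3 i).1, (h3 i).2, minpoly.aeval _ _, fun x hx => ?_⟩, h4⟩
        exact (root_bd (minpoly.monic (h3 i).1) (h3 i).2 hA0 hV0
          (fun j hj => h5 (i, ⟨j, hj⟩)) hx).trans hTl
      refine ⟨h1.subset hsub, ?_⟩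
      rw [sum_wt]
      have h6 : ((({α | α ∈ {α : Fin k → ℂ | (∀ i, IsIntegral ℤ (α i) ∧ (minpoly ℤ (α i)).natDegree = m) ∧
          Bd α} ∧ ∀ i : Fin k × Fin m,
          |((minpoly ℤ (α i.1)).coeff i.2 : ℝ)| ≤ A * V ^ (m - (i.2 : ℕ))} : Set (Fin k → ℂ)).ncard : ℕ) : ℝ) ≤
          C * (T : ℝ) ^ e := by
        refine le_trans ?_ h2
        exact_mod_cast Set.ncard_le_ncard hsub h1
      refine h6.trans ?_
      have hT0 : (0 : ℝ) < T := by linarith
      have h7 : (T : ℝ) ^ e ≤ max 1 (((A : ℝ) + 2) ^ e) * V ^ e := by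
        rcases le_total 0 e with he0 | he0
        · calc (T : ℝ) ^ e ≤ (((A : ℝ) + 2) * V) ^ e := Real.rpow_le_rpow hT0.le hTu he0
            _ = ((A : ℝ) + 2) ^ e * V ^ e := Real.mul_rpow (by positivity) hV0.le
            _ ≤ max 1 (((A : ℝ) + 2) ^ e) * V ^ e := by
                gcongr
                exact le_max_right _ _
        · calc (T : ℝ) ^ e ≤ V ^ e := Real.rpow_le_rpow_of_nonpos hV0 hVT he0
            _ = 1 * V ^ e := (one_mul _).symm
            _ ≤ max 1 (((A : ℝ) + 2) ^ e) * V ^ e := by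
                gcongr
                exact le_max_left _ _
      calc C * (T : ℝ) ^ e ≤ C * (max 1 (((A : ℝ) + 2) ^ e) * V ^ e) := mul_le_mul_of_nonneg_left h7 hC
        _ = C * max 1 (((A : ℝ) + 2) ^ e) * V ^ e := by ring)
    (θ := θ) hθ1 hθκ
  filter_upwards [hae] with x hx
  obtain ⟨N₀, hN₀⟩ := hx
  refine ⟨N₀, fun N hN α hα hB => ?_⟩
  exact hN₀ N hN α ⟨fun i => ⟨(hα i).1, (hα i).2.1⟩, hB⟩ fun i => (hα i.1).2.2 i.2

/-- an admissible exponent -/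
lemma exp_ok {c : ℝ} (hc : 0 < c) (n : ℕ) : 0 < min 1 (c / ((n : ℝ) + 1)) ∧ min 1 (c / ((n : ℝ) + 1)) ≤ 1 ∧
    min 1 (c / ((n : ℝ) + 1)) * (n : ℕ) < c := by
  have hn : (0 : ℝ) ≤ n := Nat.cast_nonneg n
  refine ⟨lt_min one_pos (by positivity), min_le_left _ _, ?_⟩
  calc min 1 (c / ((n : ℝ) + 1)) * n ≤ c / ((n : ℝ) + 1) * n := mul_le_mul_of_nonneg_right (min_le_right _ _) hn
    _ < c / ((n : ℝ) + 1) * (n + 1) := by
        apply mul_lt_mul_of_pos_left (by linarith) (by positivity)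
    _ = c := by field_simp

end Pool.Agent.V11168.NX
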