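import Mathlib

/-! Algebraic numbers of bounded degree and height: translation by integers, upper bounds. -/

set_option autoImplicit false

open Finset Polynomial

namespace Pool.Agent.V11168.NX

/-- roots of nonzero integral polynomials of degree at most `m` with coefficients of absolute value at most `T` -/
def Alg (m : ℕ) (T : ℝ) : Set ℂ :=
  {γ | ∃ p : Polynomial ℤ, p ≠ 0 ∧ p.natDegree ≤ m ∧ (∀ j, |(p.coeff j : ℝ)| ≤ T) ∧ Polynomial.aeval γ p = 0}

theorem alg_mono (m : ℕ) (S T : ℝ) (h : S ≤ T) : Alg m S ⊆ Alg m T := by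
  rintro γ ⟨p, h1, h2, h3, h4⟩
  exact ⟨p, h1, h2, fun j => (h3 j).trans h, h4⟩

theorem coeff_taylor_bd {p : Polynomial ℤ} {m : ℕ} {T : ℝ} (hT : 1 ≤ T) (hm : p.natDegree ≤ m)
    (hp : ∀ j, |(p.coeff j : ℝ)| ≤ T) (a : ℤ) (ha : |(a : ℝ)| ≤ T) (j : ℕ) :
    |(((taylor a p).coeff j : ℤ) : ℝ)| ≤ (2 * T) ^ (2 * m + 1) := by
  have hT0 : 0 ≤ T := by linarith
  rw [taylor_coeff, hasseDeriv_apply, Polynomial.sum_over_range' _ _ (m + 1) (by omega), eval_finsetSum]
  · push_cast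
    refine (abs_sum_le_sum_abs _ _).trans ?_
    have h1 : ∀ i ∈ range (m + 1), |(((monomial (i - j) ((i.choose j : ℤ) * p.coeff i)).eval a : ℤ) : ℝ)| ≤
        (2 * T) ^ (m + 1) := by
      intro i hi
      rw [mem_range] at hi
      rw [eval_monomial]
      push_cast
      rw [abs_mul, abs_mul, abs_pow, Nat.abs_cast]
      have e1 : ((i.choose j : ℕ) : ℝ) ≤ 2 ^ m := by
        have : i.choose j ≤ 2 ^ i := Nat.choose_le_two_pow i j
        have h2 : (2 : ℕ) ^ i ≤ 2 ^ m := Nat.pow_le_pow_right (by norm_num) (by omega)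
        exact_mod_cast this.trans h2
      have e2 : |(a : ℝ)| ^ (i - j) ≤ T ^ m := by
        calc |(a : ℝ)| ^ (i - j) ≤ T ^ (i - j) := pow_le_pow_left₀ (abs_nonneg _) ha _
          _ ≤ T ^ m := pow_le_pow_right₀ hT (by omega)
      calc ((i.choose j : ℕ) : ℝ) * |(p.coeff i : ℝ)| * |(a : ℝ)| ^ (i - j) ≤ 2 ^ m * T * T ^ m := by
            gcongr
            exact hp i
        _ = 1 * (2 ^ m * T ^ (m + 1)) := by ring
        _ ≤ 2 * (2 ^ m * T ^ (m + 1)) := by gcongr; norm_num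
        _ = (2 * T) ^ (m + 1) := by rw [mul_pow]; ring
    refine (sum_le_sum h1).trans ?_
    rw [sum_const, card_range, nsmul_eq_mul]
    have h2 : ((m + 1 : ℕ) : ℝ) ≤ (2 * T) ^ m := by
      calc ((m + 1 : ℕ) : ℝ) ≤ 2 ^ m := by
            have : m + 1 ≤ 2 ^ m := Nat.lt_two_pow_self
            exact_mod_cast this
        _ ≤ (2 * T) ^ m := pow_le_pow_left₀ (by norm_num) (by linarith) _
    calc ((m + 1 : ℕ) : ℝ) * (2 * T) ^ (m + 1) ≤ (2 * T) ^ m * (2 * T) ^ (m + 1) := by gcongr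
      _ = (2 * T) ^ (2 * m + 1) := by rw [← pow_add]; congr 1; ring
  · intro n
    simp

theorem alg_cl (m : ℕ) (T : ℝ) (hT : 1 ≤ T) (γ : ℂ) (hγ : γ ∈ Alg m T) (a : ℤ) (ha : |(a : ℝ)| ≤ T) :
    γ + (a : ℂ) ∈ Alg m ((2 * T) ^ (2 * m + 1)) := by
  obtain ⟨p, h1, h2, h3, h4⟩ := hγ
  refine ⟨taylor (-a) p, ?_, ?_, fun j => coeff_taylor_bd hT h2 h3 (-a) (by simpa using ha) j, ?_⟩
  · rwa [ne_eq, taylor_eq_zero]
  · rwa [natDegree_taylor]
  · rw [taylor_apply, aeval_comp]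
    simpa using h4

theorem alg_bd (m : ℕ) (T : ℝ) (hT : 1 ≤ T) (γ : ℂ) (hγ : γ ∈ Alg m T) : ‖γ‖ ≤ 2 * T := by
  obtain ⟨p, h1, h2, h3, h4⟩ := hγ
  have h5 : (p.map (Int.castRingHom ℂ)) ≠ 0 := (Polynomial.map_ne_zero_iff Int.cast_injective).2 h1
  have h6 : (p.map (Int.castRingHom ℂ)).IsRoot γ := by
    rw [IsRoot, eval_map]
    exact h4
  have h7 := IsRoot.norm_lt_cauchyBound h5 h6
  have hl : (1 : ℝ) ≤ ‖(p.map (Int.castRingHom ℂ)).leadingCoeff‖ := by
    rw [leadingCoeff_map_of_injective Int.cast_injective, eq_intCast, Complex.norm_intCast]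
    have : 1 ≤ |p.leadingCoeff| := Int.one_le_abs (leadingCoeff_ne_zero.2 h1)
    exact_mod_cast this
  have h8 : (cauchyBound (p.map (Int.castRingHom ℂ)) : ℝ) ≤ T + 1 := by
    unfold cauchyBound
    push_cast
    gcongr
    rw [div_le_iff₀ (by linarith)]
    have h9 : (((sup (range (p.map (Int.castRingHom ℂ)).natDegree) fun x => ‖(p.map (Int.castRingHom ℂ)).coeff x‖₊) : NNReal) : ℝ)
        ≤ T := by
      have h10 : (sup (range (p.map (Int.castRingHom ℂ)).natDegree) fun x => ‖(p.map (Int.castRingHom ℂ)).coeff x‖₊) ≤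
          Real.toNNReal T := by
        refine Finset.sup_le fun i _ => ?_
        apply NNReal.le_toNNReal_of_coe_le
        rw [coe_nnnorm, coeff_map, eq_intCast, Complex.norm_intCast]
        exact h3 i
      have h11 := NNReal.coe_le_coe.2 h10
      rwa [Real.coe_toNNReal T (by linarith)] at h11
    calc _ ≤ T := h9
      _ = T * 1 := by ring
      _ ≤ _ := mul_le_mul_of_nonneg_left hl (by linarith)
  have h12 : ‖γ‖ < (cauchyBound (p.map (Int.castRingHom ℂ)) : ℝ) := by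
    have := NNReal.coe_lt_coe.2 h7
    rwa [coe_nnnorm] at this
  linarith

end Pool.Agent.V11168.NX
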