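import Mathlib

/-!
# Relations with constants

A polynomial over `K` in constants `c` and in variables, of degree at most `δ`, is a polynomial in the variables whose
coefficients are in the `K`-span of the products of at most `δ` constants.
-/

set_option autoImplicit false

open Module

namespace Pool.Agent.V11168.NX

variable {υ σ : Type}

/-- `1` and the constants -/
noncomputable def Wq (c : υ → ℂ) : Submodule ℚ ℂ := Submodule.span ℚ (insert 1 (Set.range c))

lemma one_mem_Wq (c : υ → ℂ) : (1 : ℂ) ∈ Wq c := Submodule.subset_span (Set.mem_insert _ _)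

lemma mem_Wq (c : υ → ℂ) (j : υ) : c j ∈ Wq c := Submodule.subset_span (Set.mem_insert_of_mem _ ⟨j, rfl⟩)

lemma one_mem_pow (c : υ → ℂ) (n : ℕ) : (1 : ℂ) ∈ Wq c ^ n := by
  have h := Submodule.pow_mem_pow (Wq c) (one_mem_Wq c) n
  rwa [one_pow] at h

lemma Wq_mono (c : υ → ℂ) {m n : ℕ} (h : m ≤ n) : Wq c ^ m ≤ Wq c ^ n := by
  obtain ⟨k, rfl⟩ := Nat.exists_eq_add_of_le h
  intro x hx
  rw [pow_add]
  have h2 := Submodule.mul_mem_mul hx (one_mem_pow c k)
  rwa [mul_one] at h2

/-- the substitution of the constants -/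
noncomputable def fc (c : υ → ℂ) : υ ⊕ σ → MvPolynomial σ ℂ := Sum.elim (fun j => MvPolynomial.C (c j)) MvPolynomial.X

lemma mono_form (c : υ → ℂ) (s : υ ⊕ σ →₀ ℕ) : ∃ z ∈ Wq c ^ s.degree, ∃ s' : σ →₀ ℕ, s'.degree ≤ s.degree ∧
    s.prod (fun i n => (fc (σ := σ) c i) ^ n) = MvPolynomial.monomial s' z := by
  classical
  induction s using Finsupp.induction_linear with
  | zero =>
    refine ⟨1, ?_, 0, by simp, ?_⟩
    · have := one_mem_pow c 0
      simpa using this
    · rw [Finsupp.prod_zero_index]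
      rfl
  | add s t hs ht =>
    obtain ⟨z, hz, s', hs', h1⟩ := hs
    obtain ⟨w, hw, t', ht', h2⟩ := ht
    refine ⟨z * w, ?_, s' + t', ?_, ?_⟩
    · rw [map_add, pow_add]
      exact Submodule.mul_mem_mul hz hw
    · rw [map_add, map_add]
      exact add_le_add hs' ht'
    · rw [Finsupp.prod_add_index' (fun i => pow_zero _) (fun i a b => pow_add _ a b), h1, h2,
        MvPolynomial.monomial_mul]
  | single i n =>
    have hp : (Finsupp.single i n).prod (fun i n => (fc (σ := σ) c i) ^ n) = (fc (σ := σ) c i) ^ n :=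
      Finsupp.prod_single_index (h := fun i n => (fc (σ := σ) c i) ^ n) (pow_zero _)
    rw [hp, Finsupp.degree_single]
    rcases i with j | j
    · refine ⟨c j ^ n, Submodule.pow_mem_pow _ (mem_Wq c j) n, 0, by simp, ?_⟩
      rw [fc, Sum.elim_inl, ← map_pow]
      rfl
    · refine ⟨1, one_mem_pow c n, Finsupp.single j n, by rw [Finsupp.degree_single], ?_⟩
      rw [fc, Sum.elim_inr, MvPolynomial.X_pow_eq_monomial]

lemma aeval_sum (c : υ → ℂ) {K : IntermediateField ℚ ℂ} (P : MvPolynomial (υ ⊕ σ) K) :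
    MvPolynomial.aeval (fc (σ := σ) c) P =
      ∑ s ∈ P.support, MvPolynomial.C ((P.coeff s : K) : ℂ) * s.prod (fun i n => (fc (σ := σ) c i) ^ n) := by
  conv_lhs => rw [P.as_sum]
  rw [map_sum]
  refine Finset.sum_congr rfl fun s _ => ?_
  rw [MvPolynomial.aeval_monomial]
  rfl

/-- the degree -/
theorem deg_fc (c : υ → ℂ) {K : IntermediateField ℚ ℂ} (P : MvPolynomial (υ ⊕ σ) K) {δ : ℕ} (hP : P.totalDegree ≤ δ) :
    (MvPolynomial.aeval (fc (σ := σ) c) P).totalDegree ≤ δ := by
  rw [aeval_sum]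
  refine MvPolynomial.totalDegree_finsetSum_le fun s hs => ?_
  obtain ⟨z, -, s', hs', h⟩ := mono_form c s
  rw [h, MvPolynomial.C_mul_monomial]
  refine (MvPolynomial.totalDegree_monomial_le _ _).trans ?_
  have h1 : s.degree ≤ δ := (MvPolynomial.le_totalDegree hs).trans hP
  exact hs'.trans h1

/-- the coefficients -/
theorem coeff_fc (c : υ → ℂ) {K : IntermediateField ℚ ℂ} (P : MvPolynomial (υ ⊕ σ) K) {δ n : ℕ} (hP : P.totalDegree ≤ δ)
    (hn : δ ≤ n) (e : σ →₀ ℕ) :
    (MvPolynomial.aeval (fc (σ := σ) c) P).coeff e ∈ Submodule.span K ((Wq c ^ n : Submodule ℚ ℂ) : Set ℂ) := by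
  classical
  rw [aeval_sum, MvPolynomial.coeff_sum]
  refine Submodule.sum_mem _ fun s hs => ?_
  obtain ⟨z, hz, s', hs', h⟩ := mono_form c s
  rw [h, MvPolynomial.C_mul_monomial, MvPolynomial.coeff_monomial]
  split_ifs with h2
  · have h1 : s.degree ≤ n := ((MvPolynomial.le_totalDegree hs).trans hP).trans hn
    have h3 : z ∈ Wq c ^ n := Wq_mono c h1 hz
    exact Submodule.smul_mem _ (P.coeff s) (Submodule.subset_span h3)
  · exact Submodule.zero_mem _

/-- the value -/
theorem eval_fc (c : υ → ℂ) {K : IntermediateField ℚ ℂ} (P : MvPolynomial (υ ⊕ σ) K) (y : σ → ℂ) :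
    MvPolynomial.aeval y (MvPolynomial.aeval (fc (σ := σ) c) P) = MvPolynomial.aeval (Sum.elim c y) P := by
  have h2 : ((MvPolynomial.aeval y : MvPolynomial σ ℂ →ₐ[ℂ] ℂ).restrictScalars K).comp
      (MvPolynomial.aeval (fc (σ := σ) c) : MvPolynomial (υ ⊕ σ) K →ₐ[K] MvPolynomial σ ℂ)
      = MvPolynomial.aeval (Sum.elim c y) := by
    apply MvPolynomial.algHom_ext
    intro v
    rw [AlgHom.comp_apply, MvPolynomial.aeval_X, MvPolynomial.aeval_X, AlgHom.restrictScalars_apply]
    rcases v with o | v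
    · rw [fc, Sum.elim_inl, Sum.elim_inl, MvPolynomial.aeval_C]
      rfl
    · rw [fc, Sum.elim_inr, Sum.elim_inr, MvPolynomial.aeval_X]
  rw [← h2, AlgHom.comp_apply, AlgHom.restrictScalars_apply]

lemma span_le_pow (c : υ → ℂ) {K : IntermediateField ℚ ℂ} {n : ℕ} (hn : 1 ≤ n) :
    Submodule.span K (insert (1 : ℂ) (Set.range c)) ≤ Submodule.span K ((Wq c ^ n : Submodule ℚ ℂ) : Set ℂ) := by
  refine Submodule.span_le.2 ?_
  intro x hx
  refine Submodule.subset_span ?_
  have h : x ∈ Wq c ^ 1 := by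
    rw [pow_one]
    exact Submodule.subset_span hx
  exact Wq_mono c hn h

end Pool.Agent.V11168.NX
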