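import Mathlib

/-! Boxes around the points of the weighted dilates `(x_i v_N ^ (wt i))_i` which contain no point of a set with a power saving,
for almost all `x` and large `N`; roots of monic polynomials with coefficients of bounded weighted size. -/

set_option autoImplicit false

open Finset Filter Topology MeasureTheory

namespace Pool.Agent.V11168.NX

open scoped ENNReal NNReal

theorem ae_boxes {ι P : Type*} [Fintype ι] {v : ℕ → ℝ} (hv : ∀ n, 1 ≤ v n)
    (hv0 : ∀ s : ℝ, 0 < s → Summable (fun n : ℕ => (v n) ^ (-s))) (wt : ι → ℕ) (hwt : ∀ i, 1 ≤ wt i) (S : Set P)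
    (pos : P → ι → ℝ) {c : ℝ}
    (hS : ∀ A : ℕ, ∃ C : ℝ, ∀ V : ℝ, 1 ≤ V → {t | t ∈ S ∧ ∀ i, |pos t i| ≤ A * V ^ (wt i)}.Finite ∧
      ({t | t ∈ S ∧ ∀ i, |pos t i| ≤ A * V ^ (wt i)}.ncard : ℝ) ≤ C * V ^ (((∑ i, wt i : ℕ) : ℝ) - c))
    {θ : ℝ} (hθ1 : θ ≤ 1) (hθ : θ * Fintype.card ι < c) :
    ∀ᵐ x : ι → ℝ, ∃ N₀ : ℕ, ∀ N : ℕ, N₀ ≤ N → ∀ t ∈ S, ¬ ∀ i, |pos t i - x i * (v N) ^ (wt i)| ≤ (v N) ^ θ := by
  classical
  have hvp : ∀ n, 0 < v n := fun n => lt_of_lt_of_le one_pos (hv n)
  have key : ∀ A : ℕ, ∀ᵐ x : ι → ℝ, (∀ i, |x i| ≤ A) →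
      ∃ N₀ : ℕ, ∀ N : ℕ, N₀ ≤ N → ∀ t ∈ S, ¬ ∀ i, |pos t i - x i * (v N) ^ (wt i)| ≤ (v N) ^ θ := by
    intro A
    obtain ⟨C, hC⟩ := hS (A + 1)
    set F : ℕ → Finset P := fun N => (hC (v N) (hv N)).1.toFinset with hF
    set box : ℕ → P → Set (ι → ℝ) := fun N t => Set.Icc (fun i => (pos t i - (v N) ^ θ) / (v N) ^ (wt i))
      (fun i => (pos t i + (v N) ^ θ) / (v N) ^ (wt i)) with hbox
    have hvol : ∀ N t, volume (box N t) = ENNReal.ofReal (∏ i, (2 * (v N) ^ θ / (v N) ^ (wt i))) := by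
      intro N t
      rw [hbox]
      simp only
      rw [Real.volume_Icc_pi, ENNReal.ofReal_prod_of_nonneg]
      · refine Finset.prod_congr rfl fun i _ => ?_
        congr 1
        ring
      · intro i _
        have := hvp N
        positivity
    have hprod : ∀ N, ∏ i : ι, (2 * (v N) ^ θ / (v N) ^ (wt i)) =
        2 ^ Fintype.card ι * (v N) ^ (θ * Fintype.card ι - ((∑ i, wt i : ℕ) : ℝ)) := by
      intro N
      have h0 := hvp N
      have h1 : ∀ i, 2 * (v N) ^ θ / (v N) ^ (wt i) = 2 * (v N) ^ (θ - (wt i : ℝ)) := by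
        intro i
        rw [Real.rpow_sub h0, Real.rpow_natCast]
        ring
      simp_rw [h1]
      rw [Finset.prod_mul_distrib, Finset.prod_const, Finset.card_univ, ← Real.rpow_sum_of_pos h0]
      congr 2
      push_cast
      rw [Finset.sum_sub_distrib, Finset.sum_const, Finset.card_univ, nsmul_eq_mul]
      ring
    set e : ℝ := c - θ * Fintype.card ι with he
    have he0 : 0 < e := by rw [he]; linarith
    have hC0 : 0 ≤ C := by
      have h1 := (hC 1 le_rfl).2
      rw [Real.one_rpow, mul_one] at h1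
      exact (Nat.cast_nonneg _).trans h1
    have hU : ∀ N, volume (⋃ t ∈ F N, box N t) ≤ ENNReal.ofReal ((2 ^ Fintype.card ι * C) * (v N) ^ (-e)) := by
      intro N
      have h0 := hvp N
      calc volume (⋃ t ∈ F N, box N t) ≤ ∑ t ∈ F N, volume (box N t) := measure_biUnion_finset_le _ _
        _ = ((F N).card : ℝ≥0∞) * ENNReal.ofReal (∏ i, (2 * (v N) ^ θ / (v N) ^ (wt i))) := by
            rw [Finset.sum_congr rfl fun t _ => hvol N t, Finset.sum_const, nsmul_eq_mul]
        _ = ENNReal.ofReal (((F N).card : ℝ) * ∏ i, (2 * (v N) ^ θ / (v N) ^ (wt i))) := by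
            rw [ENNReal.ofReal_mul (Nat.cast_nonneg _), ENNReal.ofReal_natCast]
        _ ≤ ENNReal.ofReal ((2 ^ Fintype.card ι * C) * (v N) ^ (-e)) := by
            apply ENNReal.ofReal_le_ofReal
            have h1 := (hC (v N) (hv N)).2
            rw [Set.ncard_eq_toFinset_card _ (hC (v N) (hv N)).1] at h1
            rw [hprod N]
            calc ((F N).card : ℝ) * (2 ^ Fintype.card ι * (v N) ^ (θ * Fintype.card ι - ((∑ i, wt i : ℕ) : ℝ)))
                ≤ (C * (v N) ^ (((∑ i, wt i : ℕ) : ℝ) - c)) *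
                  (2 ^ Fintype.card ι * (v N) ^ (θ * Fintype.card ι - ((∑ i, wt i : ℕ) : ℝ))) :=
                  mul_le_mul_of_nonneg_right h1 (by positivity)
              _ = (2 ^ Fintype.card ι * C) * ((v N) ^ (((∑ i, wt i : ℕ) : ℝ) - c) *
                  (v N) ^ (θ * Fintype.card ι - ((∑ i, wt i : ℕ) : ℝ))) := by ring
              _ = (2 ^ Fintype.card ι * C) * (v N) ^ (-e) := by
                  rw [← Real.rpow_add h0]
                  congr 2
                  rw [he]
                  ring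
    have hsum : ∑' N, volume (⋃ t ∈ F N, box N t) ≠ ∞ := by
      have h1 : Summable (fun N => (2 ^ Fintype.card ι * C) * (v N) ^ (-e)) := (hv0 e he0).mul_left _
      have h2 : ∑' N, ENNReal.ofReal ((2 ^ Fintype.card ι * C) * (v N) ^ (-e)) ≠ ∞ := by
        rw [← ENNReal.ofReal_tsum_of_nonneg (fun N => by have := hvp N; positivity) h1]
        exact ENNReal.ofReal_ne_top
      exact ne_top_of_le_ne_top h2 (ENNReal.tsum_le_tsum hU)
    filter_upwards [ae_eventually_notMem hsum] with x hx hxA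
    obtain ⟨N₀, hN₀⟩ := eventually_atTop.1 hx
    refine ⟨N₀, fun N hN t ht hnear => hN₀ N hN ?_⟩
    have h0 := hvp N
    have h1 := hv N
    rw [Set.mem_iUnion₂]
    refine ⟨t, ?_, ?_⟩
    · rw [hF]
      simp only [Set.Finite.mem_toFinset]
      refine ⟨ht, fun i => ?_⟩
      have h2 := hnear i
      have h3 : |x i * (v N) ^ (wt i)| ≤ A * (v N) ^ (wt i) := by
        rw [abs_mul, abs_of_nonneg (by positivity : (0 : ℝ) ≤ (v N) ^ (wt i))]
        exact mul_le_mul_of_nonneg_right (hxA i) (by positivity)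
      have h4 : (v N) ^ θ ≤ (v N) ^ (wt i) := by
        calc (v N) ^ θ ≤ (v N) ^ ((wt i : ℕ) : ℝ) := by
              apply Real.rpow_le_rpow_of_exponent_le h1
              have : (1 : ℝ) ≤ (wt i : ℕ) := by exact_mod_cast hwt i
              linarith
          _ = (v N) ^ (wt i) := Real.rpow_natCast _ _
      have h5 : |pos t i| ≤ |pos t i - x i * (v N) ^ (wt i)| + |x i * (v N) ^ (wt i)| := by
        have := abs_add_le (pos t i - x i * (v N) ^ (wt i)) (x i * (v N) ^ (wt i))
        rwa [sub_add_cancel] at this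
      push_cast
      linarith
    · rw [hbox]
      simp only [Set.mem_Icc, Pi.le_def]
      have h2 : ∀ i, 0 < (v N) ^ (wt i) := fun i => by positivity
      refine ⟨fun i => ?_, fun i => ?_⟩
      · rw [div_le_iff₀ (h2 i)]
        have := (abs_le.1 (hnear i)).2
        linarith
      · rw [le_div_iff₀ (h2 i)]
        have := (abs_le.1 (hnear i)).1
        linarith
  rw [← ae_all_iff] at key
  filter_upwards [key] with x hx
  obtain ⟨A, hA⟩ := exists_nat_ge (∑ i, |x i|)
  exact hx A fun i => (Finset.single_le_sum (f := fun i => |x i|) (fun _ _ => abs_nonneg _) (Finset.mem_univ i)).trans hA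

/-- roots of monic polynomials with coefficients of bounded weighted size -/
theorem root_bd {m : ℕ} {f : Polynomial ℤ} (hf : f.Monic) (hm : f.natDegree = m) {A V : ℝ} (hA : 0 ≤ A) (hV : 0 < V)
    (hc : ∀ j < m, |(f.coeff j : ℝ)| ≤ A * V ^ (m - j)) {z : ℂ} (hz : Polynomial.aeval z f = 0) : ‖z‖ ≤ (A + 1) * V := by
  classical
  set g : Polynomial ℂ := (f.map (Int.castRingHom ℂ)).scaleRoots ((V : ℂ)⁻¹) with hg
  have hfm : (f.map (Int.castRingHom ℂ)).Monic := hf.map _
  have hgm : g.Monic := (Polynomial.monic_scaleRoots_iff _).2 hfm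
  have hdeg : (f.map (Int.castRingHom ℂ)).natDegree = m := by rw [hf.natDegree_map, hm]
  have hroot : g.IsRoot ((V : ℂ)⁻¹ * z) := by
    have h1 : Polynomial.eval₂ (RingHom.id ℂ) z (f.map (Int.castRingHom ℂ)) = 0 := by
      rw [Polynomial.eval₂_map]
      exact hz
    have h2 := Polynomial.scaleRoots_eval₂_eq_zero (RingHom.id ℂ) (s := (V : ℂ)⁻¹) h1
    exact h2
  have h3 := Polynomial.IsRoot.norm_lt_cauchyBound hgm.ne_zero hroot
  have h4 : ‖(V : ℂ)⁻¹ * z‖ < (Polynomial.cauchyBound g : ℝ) := by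
    have := NNReal.coe_lt_coe.2 h3
    rwa [coe_nnnorm] at this
  have h5 : (Polynomial.cauchyBound g : ℝ) ≤ A + 1 := by
    unfold Polynomial.cauchyBound
    rw [hgm.leadingCoeff, nnnorm_one, div_one]
    push_cast
    gcongr
    have h6 : (sup (range g.natDegree) fun x => ‖g.coeff x‖₊) ≤ Real.toNNReal A := by
      refine Finset.sup_le fun j hj => ?_
      apply NNReal.le_toNNReal_of_coe_le
      rw [mem_range, hg, Polynomial.natDegree_scaleRoots, hdeg] at hj
      rw [coe_nnnorm, hg, Polynomial.coeff_scaleRoots, hdeg, Polynomial.coeff_map, eq_intCast, norm_mul,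
        Complex.norm_intCast, norm_pow, norm_inv, Complex.norm_real, Real.norm_of_nonneg hV.le, inv_pow]
      rw [← div_eq_mul_inv, div_le_iff₀ (by positivity)]
      exact hc j hj
    have h7 := NNReal.coe_le_coe.2 h6
    rwa [Real.coe_toNNReal A hA] at h7
  rw [norm_mul, norm_inv, Complex.norm_real, Real.norm_of_nonneg hV.le] at h4
  have h8 : V⁻¹ * ‖z‖ ≤ A + 1 := h4.le.trans h5
  rw [inv_mul_le_iff₀ hV] at h8
  linarith

end Pool.Agent.V11168.NX
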