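import Mathlib

/-! Points of a number field near a given complex number: if for every `ε > 0` the elements of height at most `T` with a
property `Q ε` at the scale `T` are at most `C T ^ ε`, then for all `z₀` outside a set of dimension zero there is `ε` such that
only finitely many elements `z` of the field with `|z - z₀| ≤ H(z) ^ (-w)` have the property at the scale `2 H (z)`. -/

set_option autoImplicit false

open Finset Filter Topology MeasureTheory

namespace Pool.Agent.V11168.NX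

/-- dyadic counting: if at most `C T ^ ε` elements `t` of height at most `T` lie in `S T`, then the number of the `t` with
`h t ≤ X` which lie in `S T` for some `T` with `h t ≤ T ≤ 2 h t`, `4 ≤ T`, is at most `C' X ^ ε` -/
theorem dyadic {P : Type*} (h : P → ℝ) (h1 : ∀ t, 1 ≤ h t) (hfin : ∀ X : ℝ, {t | h t ≤ X}.Finite) (S : ℝ → Set P)
    {C ε : ℝ} (hε : 0 < ε) (hC : 0 ≤ C)
    (hS : ∀ T : ℝ, 1 ≤ T → (S T).Finite ∧ ((S T).ncard : ℝ) ≤ C * T ^ ε) (R : Set P)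
    (hR : ∀ t ∈ R, ∀ T : ℝ, 4 ≤ T → h t ≤ T → T ≤ 2 * h t → t ∈ S T) :
    ∃ C' : ℝ, ∀ X : ℝ, 1 ≤ X → {t | t ∈ R ∧ h t ≤ X}.Finite ∧
      ({t | t ∈ R ∧ h t ≤ X}.ncard : ℝ) ≤ C' * X ^ ε := by
  classical
  set c₂ : ℕ := {t | h t ≤ 2}.ncard with hc₂
  set r : ℝ := (2 : ℝ) ^ ε with hr
  have hr1 : 1 < r := Real.one_lt_rpow (by norm_num) hε
  refine ⟨c₂ + C * (4 ^ ε / (r - 1)), fun X hX => ⟨(hfin X).subset fun t ht => ht.2, ?_⟩⟩
  have hX0 : 0 < X := by linarith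
  set L : ℕ := ⌈Real.logb 2 X⌉₊ with hL
  have hL2 : (2 : ℝ) ^ L ≤ 2 * X := by
    have h2 : (L : ℝ) < Real.logb 2 X + 1 := Nat.ceil_lt_add_one (Real.logb_nonneg (by norm_num) hX)
    calc (2 : ℝ) ^ L = (2 : ℝ) ^ ((L : ℕ) : ℝ) := (Real.rpow_natCast _ _).symm
      _ ≤ (2 : ℝ) ^ (Real.logb 2 X + 1) := Real.rpow_le_rpow_of_exponent_le (by norm_num) h2.le
      _ = 2 * X := by
          rw [Real.rpow_add two_pos, Real.rpow_logb two_pos (by norm_num) hX0, Real.rpow_one]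
          ring
  have hone : ∀ i : ℕ, (1 : ℝ) ≤ 2 ^ i := fun i => one_le_pow₀ (by norm_num)
  have hfinU : (⋃ i ∈ range (L + 1), S (2 ^ i)).Finite :=
    (range (L + 1)).finite_toSet.biUnion fun i _ => (hS _ (hone i)).1
  have hsub : {t | t ∈ R ∧ h t ≤ X} ⊆ {t | h t ≤ 2} ∪ ⋃ i ∈ range (L + 1), S (2 ^ i) := by
    rintro t ⟨htR, htX⟩
    have ht0 : 0 < h t := lt_of_lt_of_le one_pos (h1 t)
    by_cases h2 : h t ≤ 2
    · exact Or.inl h2
    right
    push Not at h2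
    set i : ℕ := ⌈Real.logb 2 (h t)⌉₊ with hi
    have hup : h t ≤ 2 ^ i := by
      have h3 : Real.logb 2 (h t) ≤ (i : ℝ) := Nat.le_ceil _
      calc h t = (2 : ℝ) ^ (Real.logb 2 (h t)) := (Real.rpow_logb two_pos (by norm_num) ht0).symm
        _ ≤ (2 : ℝ) ^ ((i : ℕ) : ℝ) := Real.rpow_le_rpow_of_exponent_le (by norm_num) h3
        _ = 2 ^ i := Real.rpow_natCast _ _
    have hlo : (2 : ℝ) ^ i ≤ 2 * h t := by
      have h3 : (i : ℝ) < Real.logb 2 (h t) + 1 := Nat.ceil_lt_add_one (Real.logb_nonneg (by norm_num) (h1 t))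
      calc (2 : ℝ) ^ i = (2 : ℝ) ^ ((i : ℕ) : ℝ) := (Real.rpow_natCast _ _).symm
        _ ≤ (2 : ℝ) ^ (Real.logb 2 (h t) + 1) := Real.rpow_le_rpow_of_exponent_le (by norm_num) h3.le
        _ = 2 * h t := by
            rw [Real.rpow_add two_pos, Real.rpow_logb two_pos (by norm_num) ht0, Real.rpow_one]
            ring
    have h4 : (4 : ℝ) ≤ 2 ^ i := by
      have h5 : 2 ≤ i := by
        by_contra h6
        have h7 : (2 : ℝ) ^ i ≤ 2 ^ 1 := pow_le_pow_right₀ (by norm_num) (by omega)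
        linarith
      calc (4 : ℝ) = 2 ^ 2 := by norm_num
        _ ≤ 2 ^ i := pow_le_pow_right₀ (by norm_num) h5
    rw [Set.mem_iUnion₂]
    refine ⟨i, ?_, hR t htR _ h4 hup hlo⟩
    rw [mem_range, Nat.lt_succ_iff]
    exact Nat.ceil_mono (Real.logb_le_logb_of_le (by norm_num) ht0 htX)
  have hcard : ({t | t ∈ R ∧ h t ≤ X}.ncard : ℝ) ≤ c₂ + ∑ i ∈ range (L + 1), ((S (2 ^ i)).ncard : ℝ) := by
    have h2 : {t | t ∈ R ∧ h t ≤ X}.ncard ≤ c₂ + ∑ i ∈ range (L + 1), (S (2 ^ i)).ncard := by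
      refine (Set.ncard_le_ncard hsub ((hfin 2).union hfinU)).trans ((Set.ncard_union_le _ _).trans ?_)
      have h3 : (⋃ i ∈ range (L + 1), S (2 ^ i)).ncard ≤ ∑ i ∈ range (L + 1), (S (2 ^ i)).ncard := by
        exact Finset.set_ncard_biUnion_le (range (L + 1)) fun i => S (2 ^ i)
      omega
    exact_mod_cast h2
  have hsum : ∑ i ∈ range (L + 1), ((S (2 ^ i)).ncard : ℝ) ≤ C * (4 ^ ε / (r - 1)) * X ^ ε := by
    have h2 : ∀ i ∈ range (L + 1), ((S (2 ^ i)).ncard : ℝ) ≤ C * r ^ i := by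
      intro i _
      have h3 := (hS _ (hone i)).2
      have h4 : ((2 : ℝ) ^ i) ^ ε = r ^ i := by
        rw [hr, ← Real.rpow_natCast, ← Real.rpow_natCast, ← Real.rpow_mul (by norm_num), ← Real.rpow_mul (by norm_num)]
        congr 1
        ring
      rwa [h4] at h3
    refine (sum_le_sum h2).trans ?_
    rw [← mul_sum, geom_sum_eq hr1.ne']
    have h5 : r ^ (L + 1) ≤ 4 ^ ε * X ^ ε := by
      have h6 : r ^ (L + 1) = ((2 : ℝ) ^ (L + 1)) ^ ε := by
        rw [hr, ← Real.rpow_natCast, ← Real.rpow_natCast, ← Real.rpow_mul (by norm_num), ← Real.rpow_mul (by norm_num)]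
        congr 1
        ring
      rw [h6, ← Real.mul_rpow (by norm_num) hX0.le]
      apply Real.rpow_le_rpow (by positivity) _ hε.le
      rw [pow_succ]
      linarith
    have hr10 : 0 < r - 1 := by linarith
    calc C * ((r ^ (L + 1) - 1) / (r - 1)) ≤ C * ((4 ^ ε * X ^ ε) / (r - 1)) := by
          gcongr
          linarith
      _ = C * (4 ^ ε / (r - 1)) * X ^ ε := by ring
  have hXε : 1 ≤ X ^ ε := Real.one_le_rpow hX hε.le
  calc ({t | t ∈ R ∧ h t ≤ X}.ncard : ℝ) ≤ c₂ + C * (4 ^ ε / (r - 1)) * X ^ ε := by linarith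
    _ ≤ c₂ * X ^ ε + C * (4 ^ ε / (r - 1)) * X ^ ε := by
        have : (c₂ : ℝ) ≤ c₂ * X ^ ε := le_mul_of_one_le_right (Nat.cast_nonneg _) hXε
        linarith
    _ = _ := by ring

end Pool.Agent.V11168.NX
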